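import Pool.Agent.H19.SYA.TA
import Pool.Agent.H19.SYA.TB

/-!
Row PPE of the board sya: existence of a pair with `p`-denominators.
-/

set_option autoImplicit false

namespace Pool.Agent.H48.SYA

open MvPolynomial Pool.Agent.H2.ST Pool.Agent.H15.TG Pool.Agent.H19.SYA

/-- one half: the chart at `g 1` has exponent one -/
theorem half (hDVP : T_DVP) (hSUB : T_SUB) (hPPX : T_PPX) (k : Type) [Field k] [IsAlgClosed k]
    [CharZero k] (W : ℤ → Submodule k (Pol k 2)) (H : Pol k 2) (y : Fin 2 ⊕ Fin 2 → Pol k 2)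
    (w : Fin 2 → ℤ) (K : Subalgebra k (Pol k 2)) (g : Fin 2 → Pol k 2) (e ω : Fin 2 → ℕ)
    (l : ℕ) (L : Type) [Field L] [Algebra k L] (Θ : Pol k 2 →ₐ[k] L) (v : Fin 3 → L) (wr : ℕ)
    (hy : Hy W H y w) (hc : CS W K 0 g e ω l)
    (hch : Cht W H (g 1) (g 0) (ω 1) (ω 0) Θ v wr 1) :
    ∃ (p q S : Pol k 2) (α β : ℤ) (k1 : ℕ), PP W H p q S α β k1 := by
  have hs := hSUB k W H y w K g e ω l L Θ v wr hy hc hch
  obtain ⟨M, r, S, hS, h0, h1⟩ := hDVP k W H y w K 0 g e ω l (g 0) (ω 0) hy hc (hc.gK 0)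
    (hc.gw 0) (hc.pg 0).ne_zero dvd_rfl (by
      intro i hi0 hi1
      exfalso
      fin_cases i
      · exact hi0 rfl
      · exact hi1 rfl) hs
  exact ⟨g 0, g 1, S, ω 0, ω 1, M, hPPX k W H y w K g e ω l M r S hy hc hS h0 h1⟩

theorem pf_PPE (hCCX : T_CCX) (hCSX : T_CSX) (hNO3 : T_NO3) (hSUA : T_SUA) (hDVP : T_DVP)
    (hPRQ : T_PRQ) (hCHT : T_CHT) (hMMP : T_MMP) (hSUB : T_SUB) (hSWP : T_SWP)
    (hPPX : T_PPX) : T_PPE := by
  intro k _ _ _ W H y w hy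
  obtain ⟨K, hK⟩ := hCCX k W H y w hy
  obtain ⟨n, g, e, ω, l, hc⟩ := hCSX k W H y w K hy hK
  have hn := hNO3 k W H y w K n g e ω l hy hc
  subst hn
  have hs : Sur W K (g 0 * g 1) := by
    have h1 := hSUA k W H y w K 0 g e ω l hy hc
    have h2 : ∏ i, g i = g 0 * g 1 := Fin.prod_univ_two g
    rw [h2] at h1
    exact h1
  obtain ⟨M, r, S, hS, h0, h1⟩ := hDVP k W H y w K 0 g e ω l (g 0 * g 1)
    ((ω 0 : ℤ) + (ω 1 : ℤ)) hy hc (K.mul_mem (hc.gK 0) (hc.gK 1))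
    (hy.toPGr.toGr.mul _ _ _ _ (hc.gw 0) (hc.gw 1))
    (mul_ne_zero (hc.pg 0).ne_zero (hc.pg 1).ne_zero) (dvd_mul_right _ _) (by
      intro i hi0 hi1
      exfalso
      fin_cases i
      · exact hi0 rfl
      · exact hi1 rfl) hs
  have hPr : Pr W H (g 0) (g 1) S (ω 0) (ω 1) M M :=
    hPRQ k W H y w K g e ω l M r S hy hc hS h0 h1
  have hG : Gp W (g 0) (g 1) (ω 0) (ω 1) := hPr.toGp
  have hG' : Gp W (g 1) (g 0) (ω 1) (ω 0) :=
    { pg := hc.pg 1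
      hg := hG.hf
      hf := hG.hg
      pa := hG.pb
      pb := hG.pa
      lg := hG.lf
      lf := hG.lg
      gf := hc.toCC.cm _ (hc.gK 1) _ (hc.gK 0)
      nd := hc.na 1 0 (by decide) }
  obtain ⟨L, iL, jL, Θ, v, wr, m, hch⟩ := hCHT k W H y w (g 0) (g 1) (ω 0) (ω 1) hy hG
  obtain ⟨L', iL', jL', Θ', v', wr', m', hch'⟩ := hCHT k W H y w (g 1) (g 0) (ω 1) (ω 0) hy hG'
  have hm := hch.mp
  have hm' := hch'.mp
  by_cases h2 : m' = 1
  · subst h2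
    exact half hDVP hSUB hPPX k W H y w K g e ω l L' Θ' v' wr' hy hc hch'
  by_cases h3 : m = 1
  · subst h3
    exact half hDVP hSUB hPPX k W H y w K ![g 1, g 0] ![e 1, e 0] ![ω 1, ω 0] l L Θ v wr hy
      (hSWP k W K g e ω l hc) hch
  · exact (hMMP k W H y w (g 0) (g 1) S (ω 0) (ω 1) M M L L' Θ v wr m Θ' v' wr' m' hy hPr hch
      hch' (by omega) (by omega)).elim

end Pool.Agent.H48.SYA
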